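import Pool.Agent.H143RH.Compare

/-!
# The record random harmonic series has a bounded density (Q1 of MP_5a22fd_pr: proved)

`H143RH.Records P I` says that `I 0, I 1, I 2, ...` (standing for `I_1, I_2, I_3, ...`) are
independent, `{0,1}`-valued, with `P(I_{k+1} = 1) = 1/(k+1)`; `H143RH.S I = ∑ I_n / n`.

Idea: with `T = S - 1` and `A(x) = P(x ≤ T < x + ε)`, size-biasing gives
`x A(x) ≤ ∑_{n ≥ 2} A(x - 1/n) / (n (n-1))`, a near-averaging inequality over smaller points, and a
maximum principle with the increasing function `2 - √(ε/x) + 40 x` gives `A(x) ≤ C ε` uniformly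
in `ε`, first for `x ≤ 1/10` and then everywhere.
-/

namespace Pool.Agent.Results.MP_5a22fd_pr.BoundedDensity

open MeasureTheory ProbabilityTheory H143RH
open scoped ENNReal

theorem result {Ω : Type*} [MeasurableSpace Ω] (P : Measure Ω) [IsProbabilityMeasure P]
    (I : ℕ → Ω → ℝ) (hI : Records P I) :
    (∀ A : Set ℝ, MeasurableSet A → P.map (S I) A ≤ 4080 * volume A) ∧
    P.map (S I) ≪ volume ∧
    ∀ᵐ x ∂volume, (P.map (S I)).rnDeriv volume x ≤ 4080 := by
  have h := law_le hI
  have h4 : ENNReal.ofReal 4080 = 4080 := by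
    rw [ENNReal.ofReal_ofNat]
  rw [h4] at h
  have hA : ∀ A : Set ℝ, P.map (S I) A ≤ 4080 * volume A := by
    intro A
    have := Measure.le_iff'.1 h A
    rwa [Measure.smul_apply, smul_eq_mul] at this
  refine ⟨fun A _ => hA A, ?_, ?_⟩
  · intro A h0
    have := hA A
    rw [h0, mul_zero] at this
    exact le_antisymm this bot_le
  · refine ae_le_of_forall_setLIntegral_le_of_sigmaFinite (Measure.measurable_rnDeriv _ _) ?_
    intro s _ _
    rw [setLIntegral_const]
    exact (Measure.setLIntegral_rnDeriv_le s).trans (hA s)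

end Pool.Agent.Results.MP_5a22fd_pr.BoundedDensity
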